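import Mathlib
import Pool.Agent.Helper676.CS16

/-!
# The critical Chern-Simons coupling depends on the positions of the vortices

The plane is `ℝ × ℝ` with Lebesgue measure.  A torus `Ω` is given by two periods `ω₁, ω₂`; functions
on `Ω` are doubly periodic functions on the plane and equations on `Ω` are understood in the sense of
distributions for the periodic extensions, i.e. they are tested with all smooth compactly supported
functions on the plane.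
-/

set_option autoImplicit false

namespace Pool.Agent.Results.MP_277989_mp.CriticalCoupling

open MeasureTheory Filter Topology Set

/-! ### The definitions of the problem -/

/-- The lattice vector `a₁ ω₁ + a₂ ω₂`. -/
noncomputable def latticeVec (ω₁ ω₂ : ℝ × ℝ) (a : ℤ × ℤ) : ℝ × ℝ :=
  (a.1 : ℝ) • ω₁ + (a.2 : ℝ) • ω₂

/-- The area `|Ω|` of the fundamental cell spanned by `ω₁, ω₂`. -/
noncomputable def cellArea (ω₁ ω₂ : ℝ × ℝ) : ℝ := |ω₁.1 * ω₂.2 - ω₁.2 * ω₂.1|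

/-- `z` lies in the fundamental cell spanned by `ω₁, ω₂`. -/
def InCell (ω₁ ω₂ z : ℝ × ℝ) : Prop :=
  ∃ s t : ℝ, s ∈ Ico (0 : ℝ) 1 ∧ t ∈ Ico (0 : ℝ) 1 ∧ z = s • ω₁ + t • ω₂

/-- Doubly periodic functions. -/
def DoublyPeriodic (ω₁ ω₂ : ℝ × ℝ) (f : ℝ × ℝ → ℝ) : Prop :=
  ∀ (a : ℤ × ℤ) (z : ℝ × ℝ), f (z + latticeVec ω₁ ω₂ a) = f z

/-- Test functions: smooth with compact support in the plane. -/
def TestFunction (φ : ℝ × ℝ → ℝ) : Prop := ContDiff ℝ (⊤ : ℕ∞) φ ∧ HasCompactSupport φ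

/-- `∂φ/∂x`. -/
noncomputable def ddx (φ : ℝ × ℝ → ℝ) (z : ℝ × ℝ) : ℝ := fderiv ℝ φ z (1, 0)

/-- `∂φ/∂y`. -/
noncomputable def ddy (φ : ℝ × ℝ → ℝ) (z : ℝ × ℝ) : ℝ := fderiv ℝ φ z (0, 1)

/-- The Laplacian `Δφ`. -/
noncomputable def laplace (φ : ℝ × ℝ → ℝ) (z : ℝ × ℝ) : ℝ := ddx (ddx φ) z + ddy (ddy φ) z

/-- The periodic measure `Σ_j δ_{p_j}` (all lattice translates of all vortex points, with
multiplicity) applied to a test function. -/
noncomputable def vortexSum (ω₁ ω₂ : ℝ × ℝ) {N : ℕ} (p : Fin N → ℝ × ℝ) (φ : ℝ × ℝ → ℝ) : ℝ :=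
  ∑ j, ∑' a : ℤ × ℤ, φ (p j + latticeVec ω₁ ω₂ a)

/-- `u₀` is periodic and `Δu₀ = -4πN/|Ω| + 4π Σ_j δ_{p_j}`. -/
structure IsBackground (ω₁ ω₂ : ℝ × ℝ) {N : ℕ} (p : Fin N → ℝ × ℝ) (u₀ : ℝ × ℝ → ℝ) : Prop where
  periodic : DoublyPeriodic ω₁ ω₂ u₀
  locallyIntegrable : LocallyIntegrable u₀
  equation : ∀ φ, TestFunction φ →
    ∫ z, u₀ z * laplace φ z = -(4 * Real.pi * N / cellArea ω₁ ω₂) * (∫ z, φ z) +
      4 * Real.pi * vortexSum ω₁ ω₂ p φ

/-- `v` is periodic, `v ∈ W^{1,2}(Ω)`, with weak gradient `(gx, gy)`. -/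
structure IsPeriodicW12 (ω₁ ω₂ : ℝ × ℝ) (v gx gy : ℝ × ℝ → ℝ) : Prop where
  periodic : DoublyPeriodic ω₁ ω₂ v
  aesm : AEStronglyMeasurable v
  aesm_gx : AEStronglyMeasurable gx
  aesm_gy : AEStronglyMeasurable gy
  sq : LocallyIntegrable (fun z => v z ^ 2)
  sq_gx : LocallyIntegrable (fun z => gx z ^ 2)
  sq_gy : LocallyIntegrable (fun z => gy z ^ 2)
  weak_x : ∀ φ, TestFunction φ → ∫ z, v z * ddx φ z = - ∫ z, gx z * φ z
  weak_y : ∀ φ, TestFunction φ → ∫ z, v z * ddy φ z = - ∫ z, gy z * φ z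

/-- `u` is a solution of `Δu = (4/κ²) e^u (e^u - 1) + 4π Σ_j δ_{p_j}` on `Ω`: `u = u₀ + v` where `u₀`
is the background function, `v` is periodic and in `W^{1,2}(Ω)`, and `v` solves
`Δv = (4/κ²) e^{u₀+v} (e^{u₀+v} - 1) + 4πN/|Ω|` weakly. -/
def IsSolution (ω₁ ω₂ : ℝ × ℝ) (κ : ℝ) {N : ℕ} (p : Fin N → ℝ × ℝ) (u : ℝ × ℝ → ℝ) : Prop :=
  ∃ u₀ v gx gy : ℝ × ℝ → ℝ, IsBackground ω₁ ω₂ p u₀ ∧ IsPeriodicW12 ω₁ ω₂ v gx gy ∧
    (∀ z, u z = u₀ z + v z) ∧
    LocallyIntegrable (fun z => Real.exp (u z) * (Real.exp (u z) - 1)) ∧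
    ∀ φ, TestFunction φ →
      - ∫ z, (gx z * ddx φ z + gy z * ddy φ z) =
        4 / κ ^ 2 * (∫ z, Real.exp (u z) * (Real.exp (u z) - 1) * φ z) +
          4 * Real.pi * N / cellArea ω₁ ω₂ * ∫ z, φ z

/-- The couplings `κ > 0` for which a solution exists. -/
def couplings (ω₁ ω₂ : ℝ × ℝ) {N : ℕ} (p : Fin N → ℝ × ℝ) : Set ℝ :=
  {κ | 0 < κ ∧ ∃ u, IsSolution ω₁ ω₂ κ p u}

/-- The critical coupling `κ_c(Ω; p_1, …, p_N)`. -/
noncomputable def criticalCoupling (ω₁ ω₂ : ℝ × ℝ) {N : ℕ} (p : Fin N → ℝ × ℝ) : ℝ :=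
  sSup (couplings ω₁ ω₂ p)

/-- One vortex of multiplicity `m` at the origin. -/
noncomputable def clustered (m : ℕ) : Fin m → ℝ × ℝ := fun _ => 0

/-- `m` simple vortices at the points `(0,0), (0,1), …, (0,m-1)`. -/
noncomputable def spread (m : ℕ) : Fin m → ℝ × ℝ := fun j => (0, ((j : ℕ) : ℝ))

/-! ### Proof -/

open Pool.Agent.Helper676

lemma lat_eq (m : ℕ) (a : ℤ × ℤ) : latticeVec (1, 0) (0, (m : ℝ)) a = CS.lt m a := by
  unfold latticeVec CS.lt
  ext <;> simp [mul_comm]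

lemma area_eq (m : ℕ) : cellArea (1, 0) (0, (m : ℝ)) = m := by
  unfold cellArea; simp

lemma ddx_eq : ddx = CS.dx := rfl
lemma ddy_eq : ddy = CS.dy := rfl
lemma laplace_eq : laplace = CS.lap := rfl

lemma locInt_of_sq {v : ℝ × ℝ → ℝ} (hm : AEStronglyMeasurable v)
    (h : LocallyIntegrable (fun z => v z ^ 2)) : LocallyIntegrable v := by
  rw [locallyIntegrable_iff] at h ⊢
  intro K hK
  have h1 : IntegrableOn (fun z => 1 + v z ^ 2) K :=
    (integrableOn_const hK.measure_ne_top).add (h K hK)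
  refine h1.mono' hm.restrict (Eventually.of_forall fun z => ?_)
  rw [Real.norm_eq_abs, abs_le]
  constructor <;> nlinarith [sq_nonneg (v z - 1), sq_nonneg (v z + 1)]

/-- A solution in the sense of the problem is a distributional solution. -/
lemma toSol {m : ℕ} {κ : ℝ} {N : ℕ} {p : Fin N → ℝ × ℝ}
    {u : ℝ × ℝ → ℝ} (h : IsSolution (1, 0) (0, (m : ℝ)) κ p u) :
    CS.Sol m (4 / κ ^ 2) p u := by
  obtain ⟨u₀, v, gx, gy, h0, hv, hu, hF, heq⟩ := h
  have hvl := locInt_of_sq hv.aesm hv.sq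
  have hgx := locInt_of_sq hv.aesm_gx hv.sq_gx
  have hgy := locInt_of_sq hv.aesm_gy hv.sq_gy
  have hu' : u = fun z => u₀ z + v z := funext hu
  refine ⟨?_, hF, ?_, ?_⟩
  · rw [hu']; exact h0.locallyIntegrable.add hvl
  · intro a z
    have a1 := h0.periodic a z
    have a2 := hv.periodic a z
    rw [lat_eq] at a1 a2
    rw [hu, hu, a1, a2]
  · intro φ hφ hc
    have hφ2 := hφ.of_le CS.two_le_infty
    have i0 : Integrable (fun z => u₀ z * CS.lap φ z) := by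
      have := CS.integrable_mul_of_compact (CS.continuous_lap hφ2) (CS.hasCompactSupport_lap hc)
        h0.locallyIntegrable
      simpa [mul_comm] using this
    have iv : Integrable (fun z => v z * CS.lap φ z) := by
      have := CS.integrable_mul_of_compact (CS.continuous_lap hφ2) (CS.hasCompactSupport_lap hc) hvl
      simpa [mul_comm] using this
    have ivd : ∀ e, Integrable (fun z => v z * CS.dd e (CS.dd e φ) z) := by
      intro e
      have := CS.integrable_mul_of_compact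
        (CS.contDiff_dd_infty (CS.contDiff_dd_infty hφ e) e).continuous
        (CS.hasCompactSupport_dd (CS.hasCompactSupport_dd hc e) e) hvl
      simpa [mul_comm] using this
    have igx : Integrable (fun z => gx z * ddx φ z) := by
      have := CS.integrable_mul_of_compact (CS.contDiff_dd_infty hφ (1, 0)).continuous
        (CS.hasCompactSupport_dd hc (1, 0)) hgx
      exact this.congr (Eventually.of_forall fun z => mul_comm _ _)
    have igy : Integrable (fun z => gy z * ddy φ z) := by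
      have := CS.integrable_mul_of_compact (CS.contDiff_dd_infty hφ (0, 1)).continuous
        (CS.hasCompactSupport_dd hc (0, 1)) hgy
      exact this.congr (Eventually.of_forall fun z => mul_comm _ _)
    have ex := hv.weak_x (ddx φ) ⟨CS.contDiff_dd_infty hφ (1, 0), CS.hasCompactSupport_dd hc (1, 0)⟩
    have ey := hv.weak_y (ddy φ) ⟨CS.contDiff_dd_infty hφ (0, 1), CS.hasCompactSupport_dd hc (0, 1)⟩
    have e1 : ∫ z, v z * CS.lap φ z = (∫ z, v z * ddx (ddx φ) z) + ∫ z, v z * ddy (ddy φ) z := by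
      change ∫ z, v z * CS.lap φ z = (∫ z, v z * CS.dd (1, 0) (CS.dd (1, 0) φ) z) +
        ∫ z, v z * CS.dd (0, 1) (CS.dd (0, 1) φ) z
      rw [← integral_add (ivd (1, 0)) (ivd (0, 1))]
      congr 1; ext z
      rw [CS.lap, CS.dx_eq, CS.dy_eq]; ring
    have e2 := heq φ ⟨hφ, hc⟩
    rw [integral_add igx igy] at e2
    have e3 := h0.equation φ ⟨hφ, hc⟩
    rw [laplace_eq] at e3
    have e4 : ∫ z, u z * CS.lap φ z = (∫ z, u₀ z * CS.lap φ z) + ∫ z, v z * CS.lap φ z := by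
      rw [← integral_add i0 iv]
      congr 1; ext z
      rw [hu]; ring
    have e5 : vortexSum (1, 0) (0, (m : ℝ)) p φ = ∑ j, ∑' a, φ (p j + CS.lt m a) := by
      unfold vortexSum
      simp only [lat_eq]
    rw [e4, e1, ex, ey, e3, ← e5]
    have e6 : ∀ z, CS.Ff (u z) = Real.exp (u z) * (Real.exp (u z) - 1) := fun z => rfl
    simp only [e6]
    linarith

lemma sum_clustered (m : ℕ) (φ : ℝ × ℝ → ℝ) :
    vortexSum (1, 0) (0, (m : ℝ)) (clustered m) φ = m * ∑' a, φ (CS.lt m a) := by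
  unfold vortexSum clustered
  simp [lat_eq]

lemma sum_spread {m : ℕ} (hm : 1 ≤ m) {φ : ℝ × ℝ → ℝ} (hc : HasCompactSupport φ) :
    vortexSum (1, 0) (0, (m : ℝ)) (spread m) φ = ∑' a, φ (CS.lt 1 a) := by
  have : NeZero m := ⟨by omega⟩
  have hs := CS.tsum_eq_finite (n := 1) le_rfl hc
  -- the bijection
  let e : Fin m × (ℤ × ℤ) ≃ ℤ × ℤ :=
    ((Equiv.prodComm _ _).trans (Equiv.prodAssoc ℤ ℤ (Fin m))).trans
      ((Equiv.refl ℤ).prodCongr (Int.divModEquiv m).symm)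
  have he : ∀ (j : Fin m) (a : ℤ × ℤ), CS.lt 1 (e (j, a)) = spread m j + CS.lt m a := by
    intro j a
    have : e (j, a) = (a.1, a.2 * m + (j : ℕ)) := by
      simp [e, Int.divModEquiv]
    rw [this]
    unfold CS.lt spread
    ext
    · simp
    · simp; ring
  have hs' : Summable (fun x : Fin m × (ℤ × ℤ) => φ (CS.lt 1 (e x))) := e.summable_iff.mpr hs
  rw [← e.tsum_eq (fun a => φ (CS.lt 1 a)), hs'.tsum_prod, tsum_fintype]
  unfold vortexSum
  simp only [lat_eq, he]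

lemma sq_locInt_of_bounded {v : ℝ × ℝ → ℝ} (hm : Measurable v) {C : ℝ} (hC : ∀ z, |v z| ≤ C) :
    LocallyIntegrable (fun z => v z ^ 2) := by
  refine CS.locInt_of_bounded (hm.pow_const 2) (C := C ^ 2) fun z => ?_
  rw [abs_pow]
  exact pow_le_pow_left₀ (abs_nonneg _) (hC z) 2

/-- Solutions with all vortices at the origin, for small coupling. -/
lemma exists_clustered {m : ℕ} (hm : 1 ≤ m) {κ : ℝ} (hκ : 512 * (m : ℝ) * (m + 1) ≤ 4 / κ ^ 2) :
    ∃ u, IsSolution (1, 0) (0, (m : ℝ)) κ (clustered m) u := by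
  have hm0 : (m : ℝ) ≠ 0 := by positivity
  obtain ⟨u0, v, gx, gy, h1, h2, h3, h4, h5, ⟨C, h6⟩, h7, ⟨C', h8⟩, h9, ⟨C'', h10⟩, h11, h12, h13, h14⟩ :=
    CS.exists_full (n := m) (k := m) (l := 4 / κ ^ 2) hm hm hκ
  refine ⟨fun z => u0 z + v z, u0, v, gx, gy, ⟨?_, h2, ?_⟩, ⟨?_, h5.aestronglyMeasurable,
    h7.aestronglyMeasurable, h9.aestronglyMeasurable, sq_locInt_of_bounded h5 h6,
    sq_locInt_of_bounded h7 h8, sq_locInt_of_bounded h9 h10, ?_, ?_⟩, fun z => rfl, h13, ?_⟩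
  · intro a z; rw [lat_eq]; exact h1 a z
  · intro φ hφ
    rw [laplace_eq, h3 φ hφ.1 hφ.2, area_eq, sum_clustered]
    ring
  · intro a z; rw [lat_eq]; exact h4 a z
  · intro φ hφ; exact h11 φ hφ.1 hφ.2
  · intro φ hφ; exact h12 φ hφ.1 hφ.2
  · intro φ hφ
    rw [area_eq]
    exact h14 φ hφ.1 hφ.2

/-- Solutions with `m` equally spaced simple vortices, for `κ ≤ 1/16`. -/
lemma exists_spread {m : ℕ} (hm : 1 ≤ m) {κ : ℝ} (hκ : 1024 ≤ 4 / κ ^ 2) :
    ∃ u, IsSolution (1, 0) (0, (m : ℝ)) κ (spread m) u := by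
  have hm0 : (m : ℝ) ≠ 0 := by positivity
  obtain ⟨u0, v, gx, gy, h1, h2, h3, h4, h5, ⟨C, h6⟩, h7, ⟨C', h8⟩, h9, ⟨C'', h10⟩, h11, h12, h13, h14⟩ :=
    CS.exists_full (n := 1) (k := 1) (l := 4 / κ ^ 2) le_rfl le_rfl (by
      refine le_trans (le_of_eq ?_) hκ
      norm_num)
  have hlt : ∀ a : ℤ × ℤ, CS.lt m a = CS.lt 1 (a.1, m * a.2) := by
    intro a; unfold CS.lt; simp
  refine ⟨fun z => u0 z + v z, u0, v, gx, gy, ⟨?_, h2, ?_⟩, ⟨?_, h5.aestronglyMeasurable,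
    h7.aestronglyMeasurable, h9.aestronglyMeasurable, sq_locInt_of_bounded h5 h6,
    sq_locInt_of_bounded h7 h8, sq_locInt_of_bounded h9 h10, ?_, ?_⟩, fun z => rfl, h13, ?_⟩
  · intro a z; rw [lat_eq, hlt]; exact h1 _ z
  · intro φ hφ
    rw [laplace_eq, h3 φ hφ.1 hφ.2, area_eq, sum_spread hm hφ.2]
    have e7 : 4 * Real.pi * (m : ℝ) / m = 4 * Real.pi := by field_simp
    rw [e7]
    norm_num
  · intro a z; rw [lat_eq, hlt]; exact h4 _ z
  · intro φ hφ; exact h11 φ hφ.1 hφ.2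
  · intro φ hφ; exact h12 φ hφ.1 hφ.2
  · intro φ hφ
    rw [area_eq]
    have := h14 φ hφ.1 hφ.2
    rw [ddx_eq, ddy_eq, this]
    have e6 : ∀ z, CS.Ff (u0 z + v z) =
      Real.exp (u0 z + v z) * (Real.exp (u0 z + v z) - 1) := fun z => rfl
    simp only [e6]
    have e7 : 4 * Real.pi * (m : ℝ) / m = 4 * Real.pi := by field_simp
    rw [e7]
    norm_num

/-! ### The critical couplings -/

lemma bddAbove_couplings {m : ℕ} (hm : 1 ≤ m) (p : Fin m → ℝ × ℝ) :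
    ∀ κ ∈ couplings (1, 0) (0, (m : ℝ)) p, κ ≤ 1 := by
  rintro κ ⟨hκ, u, hu⟩
  have hm0 : (0 : ℝ) < m := by positivity
  have h1 := (toSol hu).necessary hm (by positivity)
  have h2 : 16 * Real.pi ≤ 4 / κ ^ 2 := by
    by_contra hcon
    push Not at hcon
    have := mul_lt_mul_of_pos_right hcon hm0
    linarith
  have hpi := Real.pi_gt_three
  rw [le_div_iff₀ (by positivity)] at h2
  by_contra hcon
  push Not at hcon
  nlinarith

lemma coupling_spread {m : ℕ} (hm : 1 ≤ m) :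
    (1 / 16 : ℝ) ∈ couplings (1, 0) (0, (m : ℝ)) (spread m) :=
  ⟨by norm_num, exists_spread hm (by norm_num)⟩

lemma coupling_clustered {m : ℕ} (hm : 1 ≤ m) :
    (1 / (32 * m) : ℝ) ∈ couplings (1, 0) (0, (m : ℝ)) (clustered m) := by
  have hm0 : (1 : ℝ) ≤ m := by exact_mod_cast hm
  refine ⟨by positivity, exists_clustered hm ?_⟩
  have : (4 : ℝ) / (1 / (32 * m)) ^ 2 = 4096 * m ^ 2 := by field_simp; norm_num
  rw [this]
  nlinarith

lemma clustered_small {ε : ℝ} (hε : 0 < ε) : ∃ m₀ : ℕ, 1 ≤ m₀ ∧ ∀ m : ℕ, m₀ ≤ m →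
    ∀ κ ∈ couplings (1, 0) (0, (m : ℝ)) (clustered m), κ < ε := by
  obtain ⟨m₀, hm₀, h⟩ := CS.nonexist (4 / ε ^ 2) (by positivity)
  refine ⟨m₀, hm₀, fun m hm κ hκ => ?_⟩
  obtain ⟨hκ0, u, hu⟩ := hκ
  by_contra hcon
  push Not at hcon
  refine h m hm (4 / κ ^ 2) (by positivity) ?_ u (toSol hu)
  apply div_le_div_of_nonneg_left (by norm_num) (by positivity)
  exact pow_le_pow_left₀ hε.le hcon 2

/-- **Main theorem.**  The critical coupling depends on the positions of the vortices: on some torus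
and for some `N` there are two choices of the vortex points with different critical couplings.
More precisely, on the torus `ℝ²/(ℤ × mℤ)` with `m` vortices, the critical coupling of a single
vortex of multiplicity `m` tends to `0` as `m → ∞`, while the one of `m` equally spaced simple
vortices is always at least `1/16`. -/
theorem result :
    (∃ (ω₁ ω₂ : ℝ × ℝ) (N : ℕ) (p q : Fin N → ℝ × ℝ), 0 < cellArea ω₁ ω₂ ∧ 1 ≤ N ∧
      (∀ j, InCell ω₁ ω₂ (p j)) ∧ (∀ j, InCell ω₁ ω₂ (q j)) ∧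
      (couplings ω₁ ω₂ p).Nonempty ∧ BddAbove (couplings ω₁ ω₂ p) ∧
      (couplings ω₁ ω₂ q).Nonempty ∧ BddAbove (couplings ω₁ ω₂ q) ∧
      criticalCoupling ω₁ ω₂ p ≠ criticalCoupling ω₁ ω₂ q) ∧
    (∀ ε : ℝ, 0 < ε → ∃ m₀ : ℕ, 1 ≤ m₀ ∧ ∀ m : ℕ, m₀ ≤ m →
      BddAbove (couplings (1, 0) (0, (m : ℝ)) (clustered m)) ∧
      BddAbove (couplings (1, 0) (0, (m : ℝ)) (spread m)) ∧
      0 < criticalCoupling (1, 0) (0, (m : ℝ)) (clustered m) ∧
      criticalCoupling (1, 0) (0, (m : ℝ)) (clustered m) < ε ∧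
      1 / 16 ≤ criticalCoupling (1, 0) (0, (m : ℝ)) (spread m)) := by
  have hb : ∀ m : ℕ, 1 ≤ m → ∀ p : Fin m → ℝ × ℝ,
      BddAbove (couplings (1, 0) (0, (m : ℝ)) p) := fun m hm p =>
    ⟨1, fun κ hκ => bddAbove_couplings hm p κ hκ⟩
  have hmain : ∀ ε : ℝ, 0 < ε → ∃ m₀ : ℕ, 1 ≤ m₀ ∧ ∀ m : ℕ, m₀ ≤ m →
      BddAbove (couplings (1, 0) (0, (m : ℝ)) (clustered m)) ∧
      BddAbove (couplings (1, 0) (0, (m : ℝ)) (spread m)) ∧
      0 < criticalCoupling (1, 0) (0, (m : ℝ)) (clustered m) ∧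
      criticalCoupling (1, 0) (0, (m : ℝ)) (clustered m) < ε ∧
      1 / 16 ≤ criticalCoupling (1, 0) (0, (m : ℝ)) (spread m) := by
    intro ε hε
    obtain ⟨m₀, hm₀, h⟩ := clustered_small (half_pos hε)
    refine ⟨m₀, hm₀, fun m hm => ?_⟩
    have hm1 : 1 ≤ m := hm₀.trans hm
    refine ⟨hb m hm1 _, hb m hm1 _, ?_, ?_, ?_⟩
    · have hm0 : (0 : ℝ) < m := by positivity
      exact lt_of_lt_of_le (by positivity : (0 : ℝ) < 1 / (32 * m))
        (le_csSup (hb m hm1 _) (coupling_clustered hm1))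
    · refine lt_of_le_of_lt (csSup_le ⟨_, coupling_clustered hm1⟩ fun κ hκ => (h m hm κ hκ).le) ?_
      linarith
    · exact le_csSup (hb m hm1 _) (coupling_spread hm1)
  refine ⟨?_, hmain⟩
  obtain ⟨m, hm, h⟩ := hmain (1 / 16) (by norm_num)
  obtain ⟨-, -, -, h1, h2⟩ := h m le_rfl
  have hm0 : (0 : ℝ) < m := by positivity
  refine ⟨(1, 0), (0, (m : ℝ)), m, spread m, clustered m, ?_, hm, ?_, ?_,
    ⟨_, coupling_spread hm⟩, hb m hm _, ⟨_, coupling_clustered hm⟩, hb m hm _, ?_⟩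
  · rw [area_eq]; exact hm0
  · intro j
    refine ⟨0, ((j : ℕ) : ℝ) / m, ⟨le_rfl, one_pos⟩, ⟨by positivity, ?_⟩, ?_⟩
    · rw [div_lt_one hm0]; exact_mod_cast j.2
    · unfold spread
      ext
      · simp
      · simp; field_simp
  · intro j
    exact ⟨0, 0, ⟨le_rfl, one_pos⟩, ⟨le_rfl, one_pos⟩, by simp [clustered]⟩
  · intro h3
    rw [h3] at h2
    linarith

end Pool.Agent.Results.MP_277989_mp.CriticalCoupling
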